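import Pool.Agent.Q260.AH.Da

set_option autoImplicit false

namespace Pool.Agent.Q96.AH

open MeasureTheory Filter Topology Set Pool.Agent.Q260.AH

theorem t_RS : S_RS := by
  intro ι l g m h φ A c ε M hA hε hM hgi hmi hhi hgm hh0 hmM hhM hφ H p0 q0 hp0 hpq0 hq0 hφ0 δ hδ
  have hB : 0 < q0 - p0 := by linarith
  set B : ℝ := q0 - p0 with hBdef
  obtain ⟨Φ, hΦ⟩ : ∃ Φ : ℝ, ∀ y ∈ Icc p0 q0, φ y ≤ Φ := by
    obtain ⟨y, -, hy⟩ := isCompact_Icc.exists_isMaxOn (nonempty_Icc.2 hpq0.le) hφ.continuousOn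
    exact ⟨φ y, fun z hz => hy hz⟩
  have hΦ0 : 0 ≤ Φ := (hφ0 p0 ⟨le_rfl, hpq0.le⟩).trans (hΦ p0 ⟨le_rfl, hpq0.le⟩)
  obtain ⟨η, hη0, hη1⟩ : ∃ η : ℝ, 0 < η ∧ η * (|c| * B + ε * M + M) ≤ δ / 2 := by
    have hX : 0 ≤ |c| * B + ε * M + M := by positivity
    refine ⟨δ / 2 / (|c| * B + ε * M + M + 1), by positivity, ?_⟩
    rw [div_mul_eq_mul_div, div_le_iff₀ (by positivity)]
    nlinarith
  have huc : UniformContinuousOn φ (Icc p0 q0) :=
    isCompact_Icc.uniformContinuousOn_of_continuous hφ.continuousOn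
  rw [Metric.uniformContinuousOn_iff] at huc
  obtain ⟨ρ, hρ0, hρ⟩ := huc η hη0
  obtain ⟨N, hN⟩ := exists_nat_gt (B / ρ)
  have hN0 : (0 : ℝ) < N := lt_of_le_of_lt (by positivity) hN
  set s : ℝ := B / N with hs
  have hs0 : 0 < s := by positivity
  have hsρ : s < ρ := by
    rw [hs, div_lt_iff₀ hN0]
    rw [div_lt_iff₀ hρ0] at hN
    linarith
  set ε' : ℝ := δ / 2 / (N * (Φ + 1)) with hε'
  have hε'0 : 0 < ε' := by positivity
  have hε'1 : N * (Φ * ε') ≤ δ / 2 := by
    rw [hε', ← mul_assoc, mul_div_assoc', div_le_iff₀ (by positivity)]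
    nlinarith
  have hlow : ∀ k : ℕ, p0 ≤ p0 + k * s := fun k => by
    have : (0 : ℝ) ≤ k * s := by positivity
    linarith
  have hNs : (N : ℝ) * s = B := by rw [hs]; field_simp
  have hup : ∀ k : ℕ, k ≤ N → p0 + k * s ≤ q0 := fun k hk => by
    have h1 : (k : ℝ) * s ≤ N * s := mul_le_mul_of_nonneg_right (by exact_mod_cast hk) hs0.le
    linarith
  have hstep : ∀ k : ℕ, p0 + ((k + 1 : ℕ) : ℝ) * s = p0 + k * s + s := fun k => by
    push_cast; ring
  have hall : ∀ᶠ i in l, ∀ k ∈ Finset.range N,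
      c * s - ε * (∫ y in (p0 + (k : ℕ) * s)..(p0 + ((k + 1 : ℕ) : ℝ) * s), h i y) - ε' ≤
        ∫ y in (p0 + (k : ℕ) * s)..(p0 + ((k + 1 : ℕ) : ℝ) * s), g i y := by
    rw [eventually_all_finset]
    intro k hk
    have hkN : k < N := Finset.mem_range.1 hk
    filter_upwards [H (p0 + (k : ℕ) * s) (p0 + ((k + 1 : ℕ) : ℝ) * s)
      (hp0.trans (hlow k)) (by rw [hstep]; linarith)
      ((hup (k + 1) hkN).trans hq0) ε' hε'0] with i hi
    have : p0 + ((k + 1 : ℕ) : ℝ) * s - (p0 + (k : ℕ) * s) = s := by rw [hstep]; ring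
    rwa [this] at hi
  filter_upwards [hall, hmM, hhM] with i hi hmi' hhi'
  have iφg : ∀ a b : ℝ, IntervalIntegrable (fun y => φ y * g i y) volume a b := fun a b =>
    (hgi i a b).continuousOn_mul hφ.continuousOn
  have iφh : ∀ a b : ℝ, IntervalIntegrable (fun y => φ y * h i y) volume a b := fun a b =>
    (hhi i a b).continuousOn_mul hφ.continuousOn
  have iφ : ∀ a b : ℝ, IntervalIntegrable φ volume a b := fun a b => hφ.intervalIntegrable a b
  have e0 : p0 + ((0 : ℕ) : ℝ) * s = p0 := by simp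
  have eN : p0 + ((N : ℕ) : ℝ) * s = q0 := by rw [hNs]; ring
  have t1 := intervalIntegral.sum_integral_adjacent_intervals (a := fun k : ℕ => p0 + (k : ℝ) * s)
    (n := N) (f := fun y => φ y * g i y) (μ := volume) fun k _ => iφg _ _
  have t2 := intervalIntegral.sum_integral_adjacent_intervals (a := fun k : ℕ => p0 + (k : ℝ) * s)
    (n := N) (f := φ) (μ := volume) fun k _ => iφ _ _
  have t3 := intervalIntegral.sum_integral_adjacent_intervals (a := fun k : ℕ => p0 + (k : ℝ) * s)
    (n := N) (f := fun y => φ y * h i y) (μ := volume) fun k _ => iφh _ _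
  have t4 := intervalIntegral.sum_integral_adjacent_intervals (a := fun k : ℕ => p0 + (k : ℝ) * s)
    (n := N) (f := h i) (μ := volume) fun k _ => hhi i _ _
  have t5 := intervalIntegral.sum_integral_adjacent_intervals (a := fun k : ℕ => p0 + (k : ℝ) * s)
    (n := N) (f := m i) (μ := volume) fun k _ => hmi i _ _
  rw [e0, eN] at t1 t2 t3 t4 t5
  have key : ∀ k ∈ Finset.range N,
      c * (∫ y in (p0 + (k : ℕ) * s)..(p0 + ((k + 1 : ℕ) : ℝ) * s), φ y) - |c| * η * s -
      ε * (∫ y in (p0 + (k : ℕ) * s)..(p0 + ((k + 1 : ℕ) : ℝ) * s), φ y * h i y) -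
      ε * η * (∫ y in (p0 + (k : ℕ) * s)..(p0 + ((k + 1 : ℕ) : ℝ) * s), h i y) - Φ * ε' -
      η * (∫ y in (p0 + (k : ℕ) * s)..(p0 + ((k + 1 : ℕ) : ℝ) * s), m i y) ≤
      ∫ y in (p0 + (k : ℕ) * s)..(p0 + ((k + 1 : ℕ) : ℝ) * s), φ y * g i y := by
    intro k hk
    have hkN : k < N := Finset.mem_range.1 hk
    have hik := hi k hk
    have hlk := hlow k
    have huk := hup (k + 1) hkN
    have hst := hstep k
    generalize p0 + ((k + 1 : ℕ) : ℝ) * s = q at hik huk hst ⊢
    generalize p0 + (k : ℝ) * s = p at hik hlk hst ⊢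
    have hpq : p ≤ q := by linarith
    have hpI : p ∈ Icc p0 q0 := ⟨hlk, by linarith⟩
    have hφp2 : φ p ≤ Φ := hΦ p hpI
    have hφp : 0 ≤ φ p := hφ0 p hpI
    have hc1 : ∀ y ∈ Icc p q, |φ y - φ p| ≤ η := by
      intro y hy
      have := hρ y ⟨hlk.trans hy.1, hy.2.trans huk⟩ p hpI (by
        rw [Real.dist_eq, abs_of_nonneg (by linarith [hy.1])]
        linarith [hy.2])
      rw [Real.dist_eq] at this
      exact this.le
    have a1 : φ p * (∫ y in p..q, g i y) - η * (∫ y in p..q, m i y) ≤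
        ∫ y in p..q, φ y * g i y := by
      rw [← intervalIntegral.integral_const_mul, ← intervalIntegral.integral_const_mul,
        ← intervalIntegral.integral_sub ((hgi i p q).const_mul _) ((hmi i p q).const_mul _)]
      refine intervalIntegral.integral_mono_on hpq
        (((hgi i p q).const_mul _).sub ((hmi i p q).const_mul _)) (iφg _ _) ?_
      intro y hy
      have b1 := hc1 y hy
      have b2 := hgm i y
      have b3 : |(φ y - φ p) * g i y| ≤ η * m i y := by
        rw [abs_mul]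
        exact mul_le_mul b1 b2 (abs_nonneg _) hη0.le
      have b4 := (abs_le.1 b3).1
      nlinarith
    have a2 : φ p * (∫ y in p..q, h i y) ≤
        (∫ y in p..q, φ y * h i y) + η * (∫ y in p..q, h i y) := by
      rw [← intervalIntegral.integral_const_mul, ← intervalIntegral.integral_const_mul,
        ← intervalIntegral.integral_add (iφh p q) ((hhi i p q).const_mul _)]
      refine intervalIntegral.integral_mono_on hpq ((hhi i p q).const_mul _)
        ((iφh p q).add ((hhi i p q).const_mul _)) ?_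
      intro y hy
      have b1 := (abs_le.1 (hc1 y hy)).1
      have b2 := hh0 i y
      nlinarith
    have a3 : |(∫ y in p..q, φ y) - φ p * s| ≤ η * s := by
      have e1 : (∫ y in p..q, φ y) - φ p * s = ∫ y in p..q, (φ y - φ p) := by
        rw [intervalIntegral.integral_sub (iφ p q) intervalIntegrable_const,
          intervalIntegral.integral_const, smul_eq_mul]
        have : q - p = s := by linarith
        rw [this]; ring
      rw [e1]
      have := intervalIntegral.norm_integral_le_of_norm_le_const (a := p) (b := q)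
        (f := fun y => φ y - φ p) (C := η) (fun y hy => by
          rw [uIoc_of_le hpq] at hy
          exact hc1 y ⟨hy.1.le, hy.2⟩)
      rw [Real.norm_eq_abs] at this
      have e2 : |q - p| = s := by
        rw [abs_of_nonneg (by linarith)]; linarith
      rwa [e2] at this
    have a4 : c * (∫ y in p..q, φ y) - |c| * η * s ≤ φ p * (c * s) := by
      have b1 : |c * ((∫ y in p..q, φ y) - φ p * s)| ≤ |c| * (η * s) := by
        rw [abs_mul]
        exact mul_le_mul_of_nonneg_left a3 (abs_nonneg _)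
      have b2 := (abs_le.1 b1).2
      nlinarith
    have a5 := mul_le_mul_of_nonneg_left hik hφp
    have a6 : φ p * ε' ≤ Φ * ε' := mul_le_mul_of_nonneg_right hφp2 hε'0.le
    have a7 := mul_le_mul_of_nonneg_left a2 hε
    nlinarith
  have hsum := Finset.sum_le_sum key
  rw [t1] at hsum
  simp only [Finset.sum_sub_distrib, ← Finset.mul_sum] at hsum
  rw [t2, t3, t4, t5, Finset.sum_const, Finset.sum_const, Finset.card_range] at hsum
  simp only [nsmul_eq_mul] at hsum
  have s1 : ∫ y in p0..q0, h i y ≤ M := by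
    refine le_trans ?_ hhi'
    exact intervalIntegral.integral_mono_interval hp0 hpq0.le hq0
      (ae_of_all _ fun y => hh0 i y) (hhi i 0 A)
  have s2 : ∫ y in p0..q0, m i y ≤ M := by
    refine le_trans ?_ hmi'
    exact intervalIntegral.integral_mono_interval hp0 hpq0.le hq0
      (ae_of_all _ fun y => (abs_nonneg _).trans (hgm i y)) (hmi i 0 A)
  have s3 : ε * η * (∫ y in p0..q0, h i y) ≤ ε * η * M :=
    mul_le_mul_of_nonneg_left s1 (by positivity)
  have s4 : η * (∫ y in p0..q0, m i y) ≤ η * M := mul_le_mul_of_nonneg_left s2 hη0.le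
  rw [hNs] at hsum
  have s6 : Φ * (N * ε') = N * (Φ * ε') := by ring
  rw [s6] at hsum
  nlinarith

end Pool.Agent.Q96.AH
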